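import Pool.Agent.LibPer37.H01

/-! # MP_309e42_an, Q2: the minimum modulus of entire functions with limit-periodic gaps

Q2 asks whether `limsup log m₀(r,f) / log M(r,f) ≥ cos (π ρ Δ)` for every nonconstant entire function
`f` of finite order `ρ` whose exponent set `Λ` has maximal density `Δ`, `ρ Δ < 1`.

We prove it for all limit-periodic exponent sets when `ρ Δ < 1/2`: if `ρ D < 1/2` and for every `ε > 0`
all but finitely many elements of `Λ` lie in at most `(D + ε) q` residue classes modulo some `q ≥ 1`, then
`limsup log m₀(r,f) / log M(r,f) ≥ cos (π ρ D)`.  The maximal density of such a set is at most `D`; if it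
is equal to `D` (unions of arithmetic progressions, square-free numbers, sets of `𝓑`-free numbers, and
their subsets of the same maximal density) this is exactly the assertion of Q2.

`MM f r` is the maximum modulus `M(r, f)`, `mm f r` the minimum modulus `m₀(r, f)`, `qf f r` the quotient
of their logarithms (in the extended reals, `log 0 = -∞`), `OrdLe f ρ` means that `f` has order at most
`ρ`, and `Cover S q m` that the elements of `S` lie in at most `m` residue classes mod `q`. -/

set_option autoImplicit false

open Filter

namespace Pool.Agent.Results.MP_309e42_an.LimitPeriodic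

open Pool.Agent.LibAV71 Pool.Agent.LibPer37

/-- the exponent set of the power series of `f` -/
def Exponents (f : ℂ → ℂ) : Set ℕ := {n | iteratedDeriv n f 0 ≠ 0}

theorem result (f : ℂ → ℂ) (hf : Differentiable ℂ f) (hnc : ∃ z w : ℂ, f z ≠ f w) (ρ D : ℝ)
    (ho : OrdLe f ρ) (hρD : ρ * D < 1 / 2)
    (hcov : ∀ ε : ℝ, 0 < ε → ∃ q n₀ : ℕ, 0 < q ∧
      Cover {n | n₀ ≤ n ∧ n ∈ Exponents f} q ((D + ε) * q)) :
    ((Real.cos (Real.pi * (ρ * D)) : ℝ) : EReal) ≤ limsup (qf f) atTop :=
  finalB f hf hnc ρ D ho hρD hcov

end Pool.Agent.Results.MP_309e42_an.LimitPeriodic
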