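import Pool.Agent.LibPer37.H01

/-! # MP_309e42_an, Q2: the minimum modulus of entire functions with exponents in `m` residue classes

Q2 asks whether `limsup log m₀(r,f) / log M(r,f) ≥ cos (π ρ Δ)` for every nonconstant entire function
`f` of finite order `ρ` whose exponent set `Λ` has maximal density `Δ`, `ρ Δ < 1`.

We prove it when `Λ` lies in `m` residue classes mod `q`, with `Δ` replaced by `m / q` (the maximal
density of `Λ` is at most `m / q`, with equality for instance if `Λ` is the union of these classes), if
`ρ (m - 1) < q / 2` and `ρ < q / 2`.  For `m = 2` this is the whole range `ρ Δ < 1` of Q2 (`Δ = 2 / q`);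
for every `m` it goes beyond `ρ Δ < 1/2`.  The extended range is not contained in the file
`LimitPeriodic`, which on the other hand treats all limit-periodic exponent sets.

`MM f r` is the maximum modulus `M(r, f)`, `mm f r` the minimum modulus `m₀(r, f)`, `qf f r` the quotient
of their logarithms (in the extended reals, `log 0 = -∞`), `OrdLe f ρ` means that `f` has order at most
`ρ`, and `Cover Λ q m` that the elements of `Λ` lie in at most `m` residue classes mod `q`. -/

set_option autoImplicit false

open Filter

namespace Pool.Agent.Results.MP_309e42_an.ResidueClasses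

open Pool.Agent.LibAV71 Pool.Agent.LibPer37

/-- the exponent set of the power series of `f` -/
def Exponents (f : ℂ → ℂ) : Set ℕ := {n | iteratedDeriv n f 0 ≠ 0}

theorem result (q m : ℕ) (hq : 0 < q) (f : ℂ → ℂ) (hf : Differentiable ℂ f)
    (hnc : ∃ z w : ℂ, f z ≠ f w) (ρ : ℝ) (ho : OrdLe f ρ) (hcov : Cover (Exponents f) q m)
    (h1 : ρ * (m / q) < 1) (h2 : ρ * (m - 1) < q / 2) (h3 : ρ < q / 2) :
    ((Real.cos (Real.pi * (ρ * (m / q))) : ℝ) : EReal) ≤ limsup (qf f) atTop :=
  finalA q hq m f hf hnc ρ ho hcov h3 (by linarith) h1

end Pool.Agent.Results.MP_309e42_an.ResidueClasses
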