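import Pool.Agent.LibAV71.Main
import Pool.Agent.LibAV71.Sharp

/-! # MP_309e42_an, Q1: the sharp constant is 1/2

For entire functions of finite order `ρ` whose exponent set has maximal density `Δ`, the inequality
`ρΔ < 1/2` forces `log |f|` to be comparable with `log M(r, f)` at infinitely many places of every
curve tending to infinity; in particular there is no finite asymptotic value.  The constant `1/2`
cannot be replaced by a larger one (`sin √z / √z`). -/

set_option autoImplicit false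

open Filter Topology

namespace Pool.Agent.Results.MP_309e42_an.SharpThreshold

open Pool.Agent.LibAV71

/-- the exponent set of the power series of `f` -/
def Exponents (f : ℂ → ℂ) : Set ℕ := {n | iteratedDeriv n f 0 ≠ 0}

/-- `γ` is a curve tending to infinity -/
def ToInfinity (γ : ℝ → ℂ) : Prop := Continuous γ ∧ Tendsto (fun t : ℝ => ‖γ t‖) atTop atTop

/-- `a` is an asymptotic value of `f` -/
def AsymptoticValue (f : ℂ → ℂ) (a : ℂ) : Prop :=
  ∃ γ : ℝ → ℂ, ToInfinity γ ∧ Tendsto (fun t : ℝ => f (γ t)) atTop (𝓝 a)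

theorem result :
    (∀ ρ Δ : ℝ, 0 ≤ ρ → 0 ≤ Δ → ρ * Δ < 1 / 2 → ∃ c : ℝ, 0 < c ∧
      ∀ f : ℂ → ℂ, Differentiable ℂ f → (∃ z w : ℂ, f z ≠ f w) → OrdLe f ρ → OrdGe f ρ →
        HasMaxDensity (Exponents f) Δ →
        ∀ γ : ℝ → ℂ, ToInfinity γ →
          ∃ᶠ t in atTop, c * Real.log (MM f ‖γ t‖) ≤ Real.log ‖f (γ t)‖) ∧
    (∀ κ : ℝ,
      (∀ f : ℂ → ℂ, Differentiable ℂ f → (∃ z w : ℂ, f z ≠ f w) → ∀ ρ Δ : ℝ, OrdLe f ρ →
        HasMaxDensity (Exponents f) Δ → ρ * Δ < κ → ¬ ∃ a : ℂ, AsymptoticValue f a) ↔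
      κ ≤ 1 / 2) := by
  refine ⟨?_, ?_⟩
  · intro ρ Δ hρ hΔ h
    obtain ⟨c, hc, H⟩ := main ρ Δ hρ hΔ h
    exact ⟨c, hc, fun f hf hnc h1 h2 hd γ hγ => H f hf hnc h1 h2 hd γ hγ.1 hγ.2⟩
  · intro κ
    constructor
    · intro H
      by_contra hκ
      push Not at hκ
      have hd : HasMaxDensity (Exponents shf) 1 := by
        rw [Exponents, sh_support]
        exact density_univ
      obtain ⟨γ, h1, h2, h3⟩ := sh_asymptotic
      exact H shf sh_diff sh_nonconst (1 / 2) 1 sh_ordLe hd (by linarith) ⟨0, γ, ⟨h1, h2⟩, h3⟩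
    · intro hκ f hf hnc ρ Δ ho hd hlt
      rintro ⟨a, γ, hγ, hlim⟩
      exact no_asymptotic_value f hf hnc ρ Δ ho hd (by linarith) ⟨a, γ, hγ.1, hγ.2, hlim⟩

end Pool.Agent.Results.MP_309e42_an.SharpThreshold
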